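import Pool.Agent.J4H3.EQ.Stm

/-!
Project EQ, piece CNT: the lower bound for the number of zeros (Jensen averaged over a rectangle, Tonelli).
-/

set_option autoImplicit false

namespace Pool.Agent.J4H21.EQ

open Complex MeasureTheory Filter Topology Set
open Pool.Agent.J4H3.EQ

theorem ae_ne_zero (f : ℂ → ℂ) (hf : Differentiable ℂ f) (hne : ∃ z, f z ≠ 0) : ∀ᵐ c : ℂ, f c ≠ 0 := by
  have hA : AnalyticOnNhd ℂ f univ := fun z _ => hf.analyticAt z
  obtain ⟨z, hz⟩ := hne
  have h := hA.preimage_zero_mem_codiscrete hz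
  have h2 := ae_restrict_le_codiscreteWithin (μ := volume) (U := (univ : Set ℂ)) MeasurableSet.univ
  rw [Measure.restrict_univ] at h2
  exact h2 h

theorem meas_posLog' (w : ℂ) (r : ℝ) : Measurable (fun c : ℂ => Real.posLog (r / ‖w - c‖)) := by
  have h1 : Measurable (fun c : ℂ => r / ‖w - c‖) := by fun_prop
  have h2 : Measurable Real.posLog := by
    unfold Real.posLog
    exact measurable_const.max Real.measurable_log
  exact h2.comp h1

theorem rect_eq (x1 x2 y1 y2 : ℝ) :
    Rect x1 x2 y1 y2 = Complex.measurableEquivRealProd ⁻¹' (Icc x1 x2 ×ˢ Icc y1 y2) := by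
  ext w
  simp [Rect, Complex.measurableEquivRealProd_apply, and_assoc, and_left_comm]

theorem rect_meas (x1 x2 y1 y2 : ℝ) : MeasurableSet (Rect x1 x2 y1 y2) := by
  rw [rect_eq]
  exact Complex.measurableEquivRealProd.measurable (measurableSet_Icc.prod measurableSet_Icc)

theorem rect_vol (x1 x2 y1 y2 : ℝ) (hx : x1 ≤ x2) :
    volume (Rect x1 x2 y1 y2) = ENNReal.ofReal ((x2 - x1) * (y2 - y1)) := by
  rw [rect_eq, Complex.volume_preserving_equiv_real_prod.measure_preimage
    (measurableSet_Icc.prod measurableSet_Icc).nullMeasurableSet]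
  rw [Measure.volume_eq_prod, Measure.prod_prod, Real.volume_Icc, Real.volume_Icc,
    ← ENNReal.ofReal_mul (by linarith)]

/-- `ofReal` of an integral -/
theorem ofReal_int_le {α : Type*} [MeasurableSpace α] (μ : Measure α) (g : α → ℝ) (hg : Integrable g μ) :
    ENNReal.ofReal (∫ x, g x ∂μ) ≤ ∫⁻ x, ENNReal.ofReal (g x) ∂μ := by
  rw [integral_eq_lintegral_pos_part_sub_lintegral_neg_part hg]
  refine (ENNReal.ofReal_le_ofReal (sub_le_self _ ENNReal.toReal_nonneg)).trans ?_
  exact ENNReal.ofReal_toReal_le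

/-- Jensen at one point, in `ENNReal` -/
theorem point_le (hJN : S_JN) (f : ℂ → ℂ) (u : ℂ → ℝ) (c : ℂ) (r L : ℝ) (S : Finset ℂ) (hf : Differentiable ℂ f)
    (hu : Continuous u) (hr : 0 < r) (hc : f c ≠ 0) (hD : Real.log ‖f c‖ ≤ u c)
    (hS : ∀ w, f w = 0 → ‖w - c‖ < r → w ∈ S) (hL : u c + L ≤ Real.circleAverage u c r) :
    ENNReal.ofReal L ≤ ENNReal.ofReal ((2 * Real.pi)⁻¹) *
        (∫⁻ θ in Ioc 0 (2 * Real.pi), ENNReal.ofReal (u (circleMap c r θ) - Real.log ‖f (circleMap c r θ)‖)) +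
      ∑ w ∈ S, ENNReal.ofReal (analyticOrderNatAt f w : ℝ) * ENNReal.ofReal (Real.posLog (r / ‖w - c‖)) := by
  have hJ := hJN f c r S hf hr hc hS
  have hiu : CircleIntegrable u c r := hu.continuousOn.circleIntegrable'
  have hil : CircleIntegrable (fun w => Real.log ‖f w‖) c r :=
    MeromorphicOn.circleIntegrable_log_norm (fun z _ => (hf.analyticAt z).meromorphicAt)
  have hsub : Real.circleAverage (fun w => u w - Real.log ‖f w‖) c r =
      Real.circleAverage u c r - Real.circleAverage (fun w => Real.log ‖f w‖) c r :=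
    Real.circleAverage_fun_sub hiu hil
  have h1 : L ≤ Real.circleAverage (fun w => u w - Real.log ‖f w‖) c r +
      ∑ w ∈ S, (analyticOrderNatAt f w : ℝ) * Real.posLog (r / ‖w - c‖) := by
    rw [hsub, hJ]
    linarith
  have hs0 : ∀ w ∈ S, 0 ≤ (analyticOrderNatAt f w : ℝ) * Real.posLog (r / ‖w - c‖) := fun w _ =>
    mul_nonneg (Nat.cast_nonneg _) Real.posLog_nonneg
  refine (ENNReal.ofReal_le_ofReal h1).trans ?_
  refine ENNReal.ofReal_add_le.trans ?_
  have h2 : ENNReal.ofReal (∑ w ∈ S, (analyticOrderNatAt f w : ℝ) * Real.posLog (r / ‖w - c‖)) =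
      ∑ w ∈ S, ENNReal.ofReal (analyticOrderNatAt f w : ℝ) * ENNReal.ofReal (Real.posLog (r / ‖w - c‖)) := by
    rw [ENNReal.ofReal_sum_of_nonneg hs0]
    refine Finset.sum_congr rfl fun w _ => ?_
    rw [ENNReal.ofReal_mul (Nat.cast_nonneg _)]
  rw [h2]
  gcongr
  have hpi : (0 : ℝ) ≤ 2 * Real.pi := by positivity
  rw [Real.circleAverage_def, smul_eq_mul, ENNReal.ofReal_mul (by positivity)]
  gcongr
  rw [intervalIntegral.integral_of_le hpi]
  have hint : CircleIntegrable (fun w => u w - Real.log ‖f w‖) c r := hiu.sub hil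
  have hint2 : IntegrableOn (fun θ => u (circleMap c r θ) - Real.log ‖f (circleMap c r θ)‖) (Ioc 0 (2 * Real.pi)) := by
    have := hint
    unfold CircleIntegrable at this
    rw [intervalIntegrable_iff_integrableOn_Ioc_of_le hpi] at this
    exact this
  exact ofReal_int_le _ _ hint2

theorem shift_le (G : ℂ → ENNReal) (A B : Set ℂ) (hA : MeasurableSet A) (hB : MeasurableSet B) (z : ℂ)
    (hAB : ∀ c ∈ A, c + z ∈ B) : ∫⁻ c in A, G (c + z) ≤ ∫⁻ w in B, G w := by
  rw [← lintegral_indicator hB, ← lintegral_indicator hA]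
  rw [← lintegral_add_right_eq_self (fun w => B.indicator G w) z]
  refine lintegral_mono fun c => ?_
  by_cases hc : c ∈ A
  · rw [indicator_of_mem hc, indicator_of_mem (hAB c hc)]
  · rw [indicator_of_notMem hc]
    exact zero_le

theorem circle_rect (x1 x2 y1 y2 r θ : ℝ) (hr : 0 < r) (c : ℂ) (hc : c ∈ Rect x1 x2 y1 y2) :
    c + r * Complex.exp (θ * I) ∈ Rect (x1 - r) (x2 + r) (y1 - r) (y2 + r) := by
  obtain ⟨h1, h2, h3, h4⟩ := hc
  have hn : ‖(r : ℂ) * Complex.exp (θ * I)‖ = r := by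
    rw [norm_mul, Complex.norm_exp_ofReal_mul_I, mul_one, Complex.norm_real, Real.norm_of_nonneg hr.le]
  have ha := (Complex.abs_re_le_norm ((r : ℂ) * Complex.exp (θ * I)))
  have hb := (Complex.abs_im_le_norm ((r : ℂ) * Complex.exp (θ * I)))
  rw [hn, abs_le] at ha hb
  refine ⟨?_, ?_, ?_, ?_⟩ <;> simp only [Complex.add_re, Complex.add_im] <;> linarith [ha.1, ha.2, hb.1, hb.2]

theorem near_rect (x1 x2 y1 y2 r : ℝ) (c w : ℂ) (hc : c ∈ Rect x1 x2 y1 y2) (hw : ‖w - c‖ < r) :
    w ∈ Rect (x1 - r) (x2 + r) (y1 - r) (y2 + r) := by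
  obtain ⟨h1, h2, h3, h4⟩ := hc
  have ha := (Complex.abs_re_le_norm (w - c)).trans hw.le
  have hb := (Complex.abs_im_le_norm (w - c)).trans hw.le
  rw [abs_le] at ha hb
  simp only [Complex.sub_re, Complex.sub_im] at ha hb
  exact ⟨by linarith [ha.1, ha.2], by linarith [ha.1, ha.2], by linarith [hb.1, hb.2], by linarith [hb.1, hb.2]⟩

theorem t_CNT : J_CNT := by
  intro hJN hKER f u x1 x2 y1 y2 r L E S hf hne hu hr hx hy hL hE hlog hzero havg hint
  set A : Set ℂ := Rect x1 x2 y1 y2 with hAdef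
  set B : Set ℂ := Rect (x1 - r) (x2 + r) (y1 - r) (y2 + r) with hBdef
  have hAm : MeasurableSet A := rect_meas _ _ _ _
  have hBm : MeasurableSet B := rect_meas _ _ _ _
  have hAB : A ⊆ B := by
    intro w hw
    obtain ⟨h1, h2, h3, h4⟩ := hw
    exact ⟨by linarith, by linarith, by linarith, by linarith⟩
  set G : ℂ → ENNReal := fun w => ENNReal.ofReal (u w - Real.log ‖f w‖) with hGdef
  have hGm : Measurable G := by
    have h1 : Measurable f := hf.continuous.measurable
    have h2 : Measurable u := hu.measurable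
    exact (h2.sub (Real.measurable_log.comp h1.norm)).ennreal_ofReal
  have hpi : (0 : ℝ) ≤ 2 * Real.pi := by positivity
  have hpi' : (0 : ℝ) < 2 * Real.pi := by positivity
  -- the pointwise inequality
  have hpt : ∀ᵐ c ∂(volume.restrict A), ENNReal.ofReal L ≤
      ENNReal.ofReal ((2 * Real.pi)⁻¹) * (∫⁻ θ in Ioc 0 (2 * Real.pi), G (circleMap c r θ)) +
      ∑ w ∈ S, ENNReal.ofReal (analyticOrderNatAt f w : ℝ) * ENNReal.ofReal (Real.posLog (r / ‖w - c‖)) := by
    filter_upwards [ae_restrict_of_ae (ae_ne_zero f hf hne), ae_restrict_mem hAm] with c hc hcA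
    exact point_le hJN f u c r L S hf hu hr hc (hlog c (hAB hcA) hc)
      (fun w hw hwc => hzero w (near_rect x1 x2 y1 y2 r c w hcA hwc) hw) (havg c hcA)
  have hGc : Measurable (fun p : ℂ × ℝ => G (circleMap p.1 r p.2)) := by
    refine hGm.comp ?_
    unfold circleMap
    fun_prop
  have hGc1 : Measurable (fun c : ℂ => ∫⁻ θ in Ioc 0 (2 * Real.pi), G (circleMap c r θ)) :=
    Measurable.lintegral_prod_right' hGc
  have hi := lintegral_mono_ae hpt
  rw [lintegral_const, Measure.restrict_apply_univ, hAdef, rect_vol x1 x2 y1 y2 hx, ← hAdef] at hi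
  rw [lintegral_add_left (hGc1.const_mul _), lintegral_const_mul _ hGc1,
    lintegral_finsetSum _ (fun w _ => ((meas_posLog' w r).ennreal_ofReal.const_mul _))] at hi
  -- first part
  have hfirst : ∫⁻ c in A, ∫⁻ θ in Ioc 0 (2 * Real.pi), G (circleMap c r θ) ≤
      ENNReal.ofReal (2 * Real.pi) * ENNReal.ofReal E := by
    rw [lintegral_lintegral_swap hGc.aemeasurable]
    calc ∫⁻ θ in Ioc 0 (2 * Real.pi), ∫⁻ c in A, G (circleMap c r θ)
        ≤ ∫⁻ θ in Ioc 0 (2 * Real.pi), ENNReal.ofReal E := by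
          refine lintegral_mono fun θ => ?_
          refine le_trans ?_ hint
          exact shift_le G A B hAm hBm (r * Complex.exp (θ * I)) (fun c hc => circle_rect x1 x2 y1 y2 r θ hr c hc)
      _ = ENNReal.ofReal (2 * Real.pi) * ENNReal.ofReal E := by
          rw [lintegral_const, Measure.restrict_apply_univ, Real.volume_Ioc, sub_zero, mul_comm]
  -- second part
  have hsecond : ∑ w ∈ S, ∫⁻ c in A, ENNReal.ofReal (analyticOrderNatAt f w : ℝ) * ENNReal.ofReal (Real.posLog (r / ‖w - c‖)) ≤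
      ∑ w ∈ S, ENNReal.ofReal ((analyticOrderNatAt f w : ℝ) * (Real.pi * r ^ 2 / 2)) := by
    refine Finset.sum_le_sum fun w _ => ?_
    rw [lintegral_const_mul _ (meas_posLog' w r).ennreal_ofReal, ENNReal.ofReal_mul (Nat.cast_nonneg _)]
    gcongr
    exact (setLIntegral_le_lintegral _ _).trans (hKER w r hr)
  have hfin := hi.trans (add_le_add (mul_le_mul_right hfirst _) hsecond)
  rw [← ENNReal.ofReal_sum_of_nonneg (fun w _ => by positivity), ← ENNReal.ofReal_mul hpi,
    ← ENNReal.ofReal_mul hL, ← ENNReal.ofReal_mul (by positivity), ← ENNReal.ofReal_add (by positivity)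
      (Finset.sum_nonneg fun w _ => by positivity)] at hfin
  rw [ENNReal.ofReal_le_ofReal_iff (by
    have : 0 ≤ ∑ w ∈ S, (analyticOrderNatAt f w : ℝ) * (Real.pi * r ^ 2 / 2) := Finset.sum_nonneg fun w _ => by positivity
    positivity)] at hfin
  rw [← Finset.sum_mul] at hfin
  have h3 : (2 * Real.pi)⁻¹ * (2 * Real.pi * E) = E := by
    field_simp
  rw [h3] at hfin
  linarith

end Pool.Agent.J4H21.EQ
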