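import Pool.Agent.J4H3.EQ.Stm

/-!
Project EQ, piece KER: `∫ log⁺ (r / |w - c|) dc ≤ π r² / 2` (layer cake).
-/

set_option autoImplicit false

namespace Pool.Agent.J4H21.EQ

open Complex MeasureTheory Filter Topology Set
open Pool.Agent.J4H3.EQ

theorem meas_posLog (w : ℂ) (r : ℝ) : Measurable (fun c : ℂ => Real.posLog (r / ‖w - c‖)) := by
  have h1 : Measurable (fun c : ℂ => r / ‖w - c‖) := by fun_prop
  have h2 : Measurable Real.posLog := by
    unfold Real.posLog
    exact measurable_const.max Real.measurable_log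
  exact h2.comp h1

theorem posLog_level (w c : ℂ) (r t : ℝ) (hr : 0 < r) (ht : 0 < t) (h : t < Real.posLog (r / ‖w - c‖)) :
    c ∈ Metric.ball w (r * Real.exp (-t)) := by
  have h0 : t < Real.log (r / ‖w - c‖) := by
    unfold Real.posLog at h
    rcases lt_max_iff.mp h with h | h
    · linarith
    · exact h
  have hne : 0 < ‖w - c‖ := by
    rcases (norm_nonneg (w - c)).eq_or_lt with h1 | h1
    · rw [← h1] at h0
      simp at h0
      linarith
    · exact h1
  have h2 : Real.exp t < r / ‖w - c‖ := by
    rwa [Real.lt_log_iff_exp_lt (div_pos hr hne)] at h0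
  rw [lt_div_iff₀ hne] at h2
  rw [Metric.mem_ball, dist_comm, dist_eq_norm, Real.exp_neg, ← div_eq_mul_inv, lt_div_iff₀ (Real.exp_pos t)]
  linarith

theorem exp_two_int : ∫⁻ t in Ioi (0 : ℝ), ENNReal.ofReal (Real.exp (-2 * t)) = ENNReal.ofReal (1 / 2) := by
  have h1 : IntegrableOn (fun t : ℝ => Real.exp (-2 * t)) (Ioi 0) := by
    have := integrableOn_exp_mul_Ioi (a := -2) (by norm_num) 0
    simpa using this
  rw [← ofReal_integral_eq_lintegral_ofReal h1 (Filter.Eventually.of_forall fun t => (Real.exp_pos _).le)]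
  congr 1
  have := integral_exp_mul_Ioi (a := -2) (by norm_num) 0
  rw [this]
  norm_num

theorem t_KER : S_KER := by
  intro w r hr
  rw [lintegral_eq_lintegral_meas_lt volume (Filter.Eventually.of_forall fun c => Real.posLog_nonneg)
    (meas_posLog w r).aemeasurable]
  calc ∫⁻ t in Ioi (0 : ℝ), volume {c : ℂ | t < Real.posLog (r / ‖w - c‖)}
      ≤ ∫⁻ t in Ioi (0 : ℝ), ENNReal.ofReal (Real.pi * r ^ 2) * ENNReal.ofReal (Real.exp (-2 * t)) := by
        refine setLIntegral_mono (by fun_prop) ?_
        intro t ht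
        have h1 : {c : ℂ | t < Real.posLog (r / ‖w - c‖)} ⊆ Metric.ball w (r * Real.exp (-t)) := by
          intro c hc
          exact posLog_level w c r t hr ht hc
        refine (measure_mono h1).trans ?_
        rw [Complex.volume_ball, ← ENNReal.ofReal_mul (by positivity)]
        have h2 : (↑NNReal.pi : ENNReal) = ENNReal.ofReal Real.pi := by
          rw [ENNReal.ofReal, ← NNReal.coe_real_pi, Real.toNNReal_coe]
        rw [h2, ← ENNReal.ofReal_pow (by positivity), ← ENNReal.ofReal_mul (by positivity)]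
        apply le_of_eq
        congr 1
        rw [mul_pow, ← Real.exp_nat_mul]
        have : ((2 : ℕ) : ℝ) * -t = -2 * t := by push_cast; ring
        rw [this]
        ring
    _ = ENNReal.ofReal (Real.pi * r ^ 2) * ∫⁻ t in Ioi (0 : ℝ), ENNReal.ofReal (Real.exp (-2 * t)) := by
        rw [lintegral_const_mul _ (by fun_prop)]
    _ ≤ ENNReal.ofReal (Real.pi * r ^ 2 / 2) := by
        rw [exp_two_int, ← ENNReal.ofReal_mul (by positivity)]
        apply le_of_eq
        congr 1
        ring

end Pool.Agent.J4H21.EQ
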